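import Pool.Agent.H89.MW.Five
import Pool.Agent.H89.Dev.Main

/-!
# The schemes with mw pure cohomology with compact supports
-/

set_option autoImplicit false

open CategoryTheory AlgebraicGeometry Module Pool.Agent.Y116.UV Pool.Agent.Z125.UN
  Pool.Agent.Q193.LT

universe u v w

namespace Pool.Agent.H89.MW

namespace Rep

variable {Ω : Type u} [Field Ω]

/-- The zero representation. -/
def zero (Ω : Type u) [Field Ω] : Rep.{u, v} Ω where
  V := PUnit
  Φ := 0
  N := 0

lemma zero_isLocal (q : ℕ) : (zero.{u, v} Ω).IsLocal q where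
  finite := inferInstanceAs (Module.Finite Ω PUnit.{v + 1})
  relation x := Subsingleton.elim (α := PUnit.{v + 1}) _ _

lemma twist_isLocal {q : ℕ} {A : Rep.{u, v} Ω} (hA : A.IsLocal q) (a : ℤ) :
    (A.twist q a).IsLocal q where
  finite := hA.finite
  relation (x : A.V) := by
    change A.N ((q : Ω) ^ (-a) • A.Φ x) = (q : Ω) • (q : Ω) ^ (-a) • A.Φ (A.N x)
    rw [map_smul, hA.relation, smul_comm]

lemma sum_isLocal {q : ℕ} {A B : Rep.{u, v} Ω} (hA : A.IsLocal q) (hB : B.IsLocal q) :
    (A.sum B).IsLocal q where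
  finite := by
    have := hA.finite
    have := hB.finite
    exact inferInstanceAs (Module.Finite Ω (A.V × B.V))
  relation := by
    rintro ⟨x, y⟩
    exact Prod.ext (hA.relation x) (hB.relation y)

variable [CharZero Ω] [IsAlgClosed Ω] {q : ℕ}

/-- A direct summand of a mw pure representation. -/
lemma IsPure.of_sum (hq : 1 < q) {A B : Rep.{u, v} Ω} (hA : A.IsLocal q) (hB : B.IsLocal q) {i : ℤ}
    (h : (A.sum B).IsPure q i) : B.IsPure q i := by
  let z : Hom (zero.{u, v} Ω) (zero.{u, v} Ω) := ⟨0, fun _ => rfl, fun _ => rfl⟩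
  let f : Hom (zero.{u, v} Ω) B := ⟨0, fun _ => (map_zero B.Φ).symm, fun _ => (map_zero B.N).symm⟩
  let g : Hom B (A.sum B) := ⟨LinearMap.inr Ω A.V B.V, fun x => by
    change ((0 : A.V), B.Φ x) = (A.Φ 0, B.Φ x)
    rw [map_zero], fun x => by
    change ((0 : A.V), B.N x) = (A.N 0, B.N x)
    rw [map_zero]⟩
  let k : Hom (A.sum B) (A.sum B) := ⟨(LinearMap.inl Ω A.V B.V) ∘ₗ LinearMap.fst Ω A.V B.V,
    fun x => by
      change (A.Φ x.1, (0 : B.V)) = (A.Φ x.1, B.Φ 0)
      rw [map_zero], fun x => by
      change (A.N x.1, (0 : B.V)) = (A.N x.1, B.N 0)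
      rw [map_zero]⟩
  have e1 : z.Exact f := fun y => ⟨fun _ => ⟨0, Subsingleton.elim (α := PUnit.{v + 1}) _ _⟩, fun _ => rfl⟩
  have e2 : f.Exact g := by
    intro y
    constructor
    · intro hy
      refine ⟨0, ?_⟩
      have h1 : ((0 : A.V), y) = ((0 : A.V), (0 : B.V)) := hy
      exact (Prod.ext_iff.mp h1).2.symm
    · rintro ⟨x, rfl⟩
      rfl
  have e3 : g.Exact k := by
    rintro ⟨x, y⟩
    constructor
    · intro hy
      have h1 : ((x : A.V), (0 : B.V)) = ((0 : A.V), (0 : B.V)) := hy
      refine ⟨y, ?_⟩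
      change ((0 : A.V), y) = (x, y)
      rw [(Prod.mk.inj h1).1]
    · rintro ⟨x', hx'⟩
      have h1 : ((0 : A.V), x') = (x, y) := hx'
      change ((x : A.V), (0 : B.V)) = ((0 : A.V), (0 : B.V))
      rw [← (Prod.mk.inj h1).1]
  exact five hq e1 e2 e3 (zero_isLocal q) (zero_isLocal q) hB (sum_isLocal hA hB)
    (sum_isLocal hA hB) (isPure_zero (inferInstanceAs (Subsingleton PUnit.{v + 1})) i)
    (isPure_zero (inferInstanceAs (Subsingleton PUnit.{v + 1})) i) h h

end Rep

section

variable {k : Type} [Field k] {Ω : Type u} [Field Ω] [CharZero Ω] [IsAlgClosed Ω] {q : ℕ}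
  {H : ℤ → ℤ → Sch k → Rep.{u, v} Ω}

omit [IsAlgClosed Ω] in
/-- The cohomology of a point. -/
lemma allPure_point (hH : IsWeightCohomology q H) : AllPure q H (aff k k) := by
  intro n w
  by_cases h : (n, w) = (0, 0)
  · obtain ⟨rfl, rfl⟩ := Prod.ext_iff.mp h
    obtain ⟨-, h1, h2⟩ := hH.point
    have hN : ∀ (a : ℕ) (x : (H 0 0 (aff k k)).V), ((H 0 0 (aff k k)).N ^ (a + 1)) x = 0 := by
      intro a x
      rw [pow_succ', Module.End.mul_apply, h2]
    refine ⟨fun a => if 0 ≤ a then ⊤ else ⊥, ⟨?_, ?_, ?_, ?_, ?_, ?_⟩, ?_, ?_⟩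
    · intro a b hab
      dsimp only
      split_ifs with h3 h4
      · exact le_rfl
      · omega
      · exact bot_le
      · exact le_rfl
    · exact ⟨-1, by simp⟩
    · exact ⟨0, by simp⟩
    · intro a x _
      rw [h2]
      exact Submodule.zero_mem _
    · intro a x hx hx'
      dsimp only at hx hx' ⊢
      rcases a with - | a
      · simpa using hx'
      · rw [if_pos (by push_cast; omega)]
        exact Submodule.mem_top
    · intro a y hy
      dsimp only at hy ⊢
      rcases a with - | a
      · refine ⟨y, by simp, ?_⟩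
        simp
      · rw [if_neg (by push_cast; omega)] at hy
        refine ⟨0, Submodule.zero_mem _, ?_⟩
        rw [(Submodule.mem_bot Ω).mp hy, map_zero, sub_zero]
        exact Submodule.zero_mem _
    · intro a x hx
      rw [h1]
      exact hx
    · intro a α x hx hx' hα
      dsimp only at hx hx' hα
      have ha : a = 0 := by
        by_contra h3
        rcases lt_or_gt_of_ne h3 with h4 | h4
        · rw [if_neg (by omega)] at hx
          apply hx'
          rw [if_neg (by omega)]
          exact hx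
        · apply hx'
          rw [if_pos (by omega)]
          exact Submodule.mem_top
      subst ha
      rw [if_neg (by omega)] at hx' hα
      rw [h1] at hα
      have h3 : (1 - α) • x = 0 := by
        rw [sub_smul, one_smul]
        exact (Submodule.mem_bot Ω).mp hα
      have h4 : x ≠ 0 := fun h5 => hx' (by rw [h5]; exact Submodule.zero_mem _)
      have h5 : α = 1 := by
        rcases smul_eq_zero.mp h3 with h6 | h6
        · exact (sub_eq_zero.mp h6).symm
        · exact absurd h6 h4
      subst h5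
      refine ⟨isAlgebraic_one, fun z hz => ?_⟩
      rw [minpoly.one] at hz
      have h6 : z = 1 := by
        have : z - 1 = 0 := by simpa using hz
        exact sub_eq_zero.mp this
      rw [h6]
      simp
  · exact Rep.isPure_zero (hH.point.1 n w h) w

/-- **Closure properties of the schemes with mw pure cohomology with compact supports.** -/
theorem bnd_allPure (hq : 1 < q) (hH : IsWeightCohomology q H) :
    Bnd True fun X : Sch k => AllPure q H X := by
  have hbun : ∀ (B : Type) [CommRing B] [Algebra k B] [Algebra.FiniteType k B] (m : ℕ)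
      (f : Fin m → B) (U : Sch k) (j : U ⟶ aff k B), IsOpenImmersion j.left →
      Set.range j.left = {x : PrimeSpectrum B | ∃ l, f l ∉ x.asIdeal} →
      (AllPure q H U ↔ AllPure q H (aff k (Jou f))) := by
    intro B _ _ _ m f U j hj hr
    constructor
    · intro h n w
      have e := hH.bundle B m f U j hj hr n w
      have h1 := (h (n + 2 * (1 - m)) (w + 2 * (1 - m))).twist hq (1 - m)
      rw [show w + 2 * (1 - (m : ℤ)) - 2 * (1 - m) = w by ring] at h1
      exact h1.iso e.symm
    · intro h n w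
      have e := hH.bundle B m f U j hj hr (n - 2 * (1 - m)) (w - 2 * (1 - m))
      rw [sub_add_cancel, sub_add_cancel] at e
      exact Rep.IsPure.of_twist hq ((h _ _).iso e)
  exact
  { iso := fun hX e h n w => (h n w).iso (hH.iso hX e n w)
    total := fun i j hX ht hZ hU n w => by
      obtain ⟨a, b, d, e1, e2, e3⟩ := hH.exact i j hX ht w
      have e3' := e3 (n - 1)
      obtain ⟨m, rfl⟩ : ∃ m, n = m + 1 := ⟨n - 1, by ring⟩
      exact Rep.five hq (e3 m) (e1 (m + 1)) (e2 (m + 1)) (hH.isLocal _ _ _) (hH.isLocal _ _ _)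
        (hH.isLocal _ _ _) (hH.isLocal _ _ _) (hH.isLocal _ _ _) (hZ _ _) (hU _ _) (hZ _ _)
        (hU _ _)
    opened := fun i j hX ht hZ hX' n w => by
      obtain ⟨a, b, d, e1, e2, e3⟩ := hH.exact i j hX ht w
      obtain ⟨m, rfl⟩ : ∃ m, n = m + 1 := ⟨n - 1, by ring⟩
      exact Rep.five hq (e2 m) (e3 m) (e1 (m + 1)) (hH.isLocal _ _ _) (hH.isLocal _ _ _)
        (hH.isLocal _ _ _) (hH.isLocal _ _ _) (hH.isLocal _ _ _) (hX' _ _) (hZ _ _) (hX' _ _)
        (hZ _ _)
    closed := fun i j hX ht hX' hU n w => by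
      obtain ⟨a, b, d, e1, e2, e3⟩ := hH.exact i j hX ht w
      exact Rep.five hq (e1 n) (e2 n) (e3 n) (hH.isLocal _ _ _) (hH.isLocal _ _ _)
        (hH.isLocal _ _ _) (hH.isLocal _ _ _) (hH.isLocal _ _ _) (hU _ _) (hX' _ _) (hU _ _)
        (hX' _ _)
    space := fun n => by
      have h2 := (hbun k (n + 1) (f1 k n) (aff k k) (𝟙 _) inferInstance (range_id n)).mp
        (allPure_point hH)
      intro p w
      exact (h2 p w).iso (hH.iso (ft_aff True) ⟨(affIso (jouOne k n)).symm⟩ p w)
    jouanolou := fun B _ _ _ m f U j hj hr h => (hbun B m f U j hj hr).mpr h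
    torus := fun B _ _ _ h n w => by
      have h2 := (h (n + 1) w).iso (hH.torus B (n + 1) w)
      have h3 := Rep.IsPure.of_sum hq (Rep.twist_isLocal (hH.isLocal _ _ _) _)
        (hH.isLocal _ _ _) h2
      rwa [add_sub_cancel_right] at h3
    bundle := fun B _ _ _ m f U j hj hr h => (hbun B m f U j hj hr).mp h }

omit [IsAlgClosed Ω] in
/-- For a smooth proper scheme. -/
lemma allPure_iff (hH : IsWeightCohomology q H) {X : Sch k} (h1 : Smooth X.hom)
    (h2 : IsProper X.hom) : AllPure q H X ↔ MonodromyWeight q H X := by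
  constructor
  · intro h n
    exact h n n
  · intro h n w
    by_cases hnw : n = w
    · subst hnw
      exact h n
    · exact Rep.isPure_zero (hH.pure X h1 h2 n w hnw) w

omit [IsAlgClosed Ω] in
lemma forClass_iff (hH : IsWeightCohomology q H) {Q : Sch k → Prop} (hQ : Dev.IsClass Q) (n : ℕ) :
    Dev.ForClass Q (MonodromyWeight q H) n ↔ Dev.ForClass Q (AllPure q H) n :=
  forall_congr' fun X => forall_congr' fun hX => forall_congr' fun _ =>
    (allPure_iff hH (hQ.smooth X hX) (hQ.proper X hX)).symm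

end

end Pool.Agent.H89.MW
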