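import Pool.Agent.H89.Dev.Defs

/-!
# mw purity and the weight-graded cohomology with compact supports: definitions
-/

set_option autoImplicit false

open CategoryTheory AlgebraicGeometry Pool.Agent.Y116.UV Pool.Agent.H89.Dev

universe u v

namespace Pool.Agent.H89.MW

/-! ### mw purity -/

/-- `α` is a `q`-Weil number of weight `w`: an algebraic number all of whose complex conjugates have
absolute value `q ^ (w / 2)`. -/
def IsWeilNumber {Ω : Type u} [Field Ω] [CharZero Ω] (q : ℕ) (w : ℤ) (α : Ω) : Prop :=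
  IsAlgebraic ℚ α ∧
    ∀ z : ℂ, Polynomial.aeval z (minpoly ℚ α) = 0 → ‖z‖ = (q : ℝ) ^ ((w : ℝ) / 2)

section Pure

variable {Ω : Type u} [Field Ω] {V : Type v} [AddCommGroup V] [Module Ω V]

/-- `M` is the monodromy filtration of the (nilpotent) operator `N`: a finite increasing filtration
such that `N (M_a) ⊆ M_(a - 2)` and `N ^ a` induces an isomorphism of `M_a / M_(a - 1)` with
`M_(-a) / M_(-a - 1)` for all `a ≥ 0`. -/
structure IsMonodromyFiltration (N : Module.End Ω V) (M : ℤ → Submodule Ω V) : Prop where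
  mono : Monotone M
  bot : ∃ a, M a = ⊥
  top : ∃ a, M a = ⊤
  map : ∀ a x, x ∈ M a → N x ∈ M (a - 2)
  inj : ∀ (a : ℕ) x, x ∈ M a → (N ^ a) x ∈ M (-a - 1) → x ∈ M (a - 1)
  surj : ∀ (a : ℕ) y, y ∈ M (-a) → ∃ x ∈ M a, y - (N ^ a) x ∈ M (-a - 1)

/-- `V`, with the action `Φ` of a geometric Frobenius element and the logarithm `N` of the
monodromy, is mw pure of weight `i`: every eigenvalue of `Φ` on the graded piece `M_a / M_(a - 1)` of
the monodromy filtration `M` is a `q`-Weil number of weight `a + i`. -/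
def IsMWPure [CharZero Ω] (q : ℕ) (i : ℤ) (Φ N : Module.End Ω V) : Prop :=
  ∃ M : ℤ → Submodule Ω V, IsMonodromyFiltration N M ∧ (∀ a x, x ∈ M a → Φ x ∈ M a) ∧
    ∀ (a : ℤ) (α : Ω) (x : V), x ∈ M a → x ∉ M (a - 1) → Φ x - α • x ∈ M (a - 1) →
      IsWeilNumber q (a + i) α

end Pure

/-! ### Representations of the Galois group of a local field -/

/-- A representation of the absolute Galois group of a local field with the coefficient field `Ω`:
only the action `Φ` of a geometric Frobenius element and the logarithm `N` of the monodromy (of the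
inertia subgroup) are recorded. -/
structure Rep (Ω : Type u) [Field Ω] where
  V : Type v
  [addCommGroup : AddCommGroup V]
  [module : Module Ω V]
  Φ : Module.End Ω V
  N : Module.End Ω V

attribute [instance] Rep.addCommGroup Rep.module

namespace Rep

variable {Ω : Type u} [Field Ω]

/-- The representation `A` is mw pure of weight `i`. -/
def IsPure [CharZero Ω] (q : ℕ) (i : ℤ) (A : Rep.{u, v} Ω) : Prop := IsMWPure q i A.Φ A.N

/-- `A` is finite-dimensional, and `N Φ = q Φ N`. -/
structure IsLocal (q : ℕ) (A : Rep.{u, v} Ω) : Prop where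
  finite : Module.Finite Ω A.V
  relation : ∀ x, A.N (A.Φ x) = (q : Ω) • A.Φ (A.N x)

/-- A morphism of representations. -/
@[ext]
structure Hom (A B : Rep.{u, v} Ω) where
  toFun : A.V →ₗ[Ω] B.V
  map_Φ : ∀ x, toFun (A.Φ x) = B.Φ (toFun x)
  map_N : ∀ x, toFun (A.N x) = B.N (toFun x)

/-- `A ⟶ B ⟶ C` is exact at `B`. -/
def Hom.Exact {A B C : Rep.{u, v} Ω} (f : Hom A B) (g : Hom B C) : Prop :=
  ∀ y, g.toFun y = 0 ↔ ∃ x, f.toFun x = y

/-- `A` and `B` are isomorphic. -/
def Iso (A B : Rep.{u, v} Ω) : Prop :=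
  ∃ (f : Hom A B), Function.Bijective f.toFun

/-- The Tate twist `A(a)`: the geometric Frobenius is multiplied by `q ^ (-a)`. -/
def twist (q : ℕ) (a : ℤ) (A : Rep.{u, v} Ω) : Rep.{u, v} Ω where
  V := A.V
  Φ := ((q : Ω) ^ (-a)) • A.Φ
  N := A.N

/-- The direct sum. -/
def sum (A B : Rep.{u, v} Ω) : Rep.{u, v} Ω where
  V := A.V × B.V
  Φ := A.Φ.prodMap B.Φ
  N := A.N.prodMap B.N

end Rep

/-! ### The cohomology -/

/-- The standard properties of the graded pieces `H n w X = gr^W_w H^n_c(X_{\bar K}, Ω)` of the weight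
filtration of the `ℓ`-adic cohomology with compact supports, for the schemes `X` over a field `k`
contained in a local field `K` whose residue field has `q` elements.

* `point`: the cohomology of `Spec k` is `Ω`, in the degree `0` and of weight `0`;
* `pure`: for smooth proper `X` the cohomology `H^n` has only the weight `n` (Deligne);
* `exact`: the long exact sequence
  `⋯ → H^n_c(U) → H^n_c(X) → H^n_c(Z) → H^{n+1}_c(U) → ⋯` for a closed subscheme `Z` of `X` with
  the complement `U`, strictly compatible with the weights;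
* `bundle`: for the affine bundle `Spec B[w_1, …, w_m] / (∑ f_l w_l - 1) → U` with fibre `𝔸^{m-1}`,
  where `U` is the complement of `f = 0` in `Spec B`, the cohomology of the total space is
  `H^{n-2(m-1)}_c(U)(-(m-1))`;
* `torus`: `H^n_c(X × 𝔾_m) = H^{n-2}_c(X)(-1) ⊕ H^{n-1}_c(X)` for affine `X`. -/
structure IsWeightCohomology {k : Type} [Field k] {Ω : Type u} [Field Ω] (q : ℕ)
    (H : ℤ → ℤ → Sch k → Rep.{u, v} Ω) : Prop where
  isLocal : ∀ n w X, (H n w X).IsLocal q
  point : (∀ n w, (n, w) ≠ (0, 0) → Subsingleton (H n w (aff k k)).V) ∧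
    (∀ x, (H 0 0 (aff k k)).Φ x = x) ∧ ∀ x, (H 0 0 (aff k k)).N x = 0
  pure : ∀ X, Smooth X.hom → IsProper X.hom → ∀ n w, n ≠ w → Subsingleton (H n w X).V
  iso : ∀ {X Y : Sch k}, FT True X → Nonempty (X ≅ Y) → ∀ n w, (H n w X).Iso (H n w Y)
  exact : ∀ {Z X U : Sch k} (i : Z ⟶ X) (j : U ⟶ X), FT True X → IsTriple i j → ∀ w,
    ∃ (a : ∀ n, Rep.Hom (H n w U) (H n w X)) (b : ∀ n, Rep.Hom (H n w X) (H n w Z))
      (d : ∀ n, Rep.Hom (H n w Z) (H (n + 1) w U)),
      (∀ n, (a n).Exact (b n)) ∧ (∀ n, (b n).Exact (d n)) ∧ (∀ n, (d n).Exact (a (n + 1)))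
  bundle : ∀ (B : Type) [CommRing B] [Algebra k B] [Algebra.FiniteType k B] (m : ℕ)
    (f : Fin m → B) (U : Sch k) (j : U ⟶ aff k B), IsOpenImmersion j.left →
    Set.range j.left = {x : PrimeSpectrum B | ∃ l, f l ∉ x.asIdeal} →
    ∀ n w, (H n w (aff k (Jou f))).Iso
      ((H (n + 2 * (1 - m)) (w + 2 * (1 - m)) U).twist q (1 - m))
  torus : ∀ (B : Type) [CommRing B] [Algebra k B] [Algebra.FiniteType k B], ∀ n w,
    (H n w (aff k (LaurentPolynomial B))).Iso
      (((H (n - 2) (w - 2) (aff k B)).twist q (-1)).sum (H (n - 1) w (aff k B)))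

/-- The monodromy-weight conjecture for the scheme `X` (smooth and proper over `k`): `H^n(X)`, which is
the graded piece of weight `n` of its weight filtration, is mw pure of weight `n`, for all `n`. -/
def MonodromyWeight {k : Type} [Field k] {Ω : Type u} [Field Ω] [CharZero Ω] (q : ℕ)
    (H : ℤ → ℤ → Sch k → Rep.{u, v} Ω) (X : Sch k) : Prop :=
  ∀ n, (H n n X).IsPure q n

/-- The graded pieces of the weight filtration of the cohomology with compact supports of `X` are mw
pure: `gr^W_w H^n_c(X)` is mw pure of weight `w`, for all `n` and `w`. -/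
def AllPure {k : Type} [Field k] {Ω : Type u} [Field Ω] [CharZero Ω] (q : ℕ)
    (H : ℤ → ℤ → Sch k → Rep.{u, v} Ω) (X : Sch k) : Prop :=
  ∀ n w, (H n w X).IsPure q w

end Pool.Agent.H89.MW
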