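import Pool.Agent.H89.MW.Pure

/-!
# The five lemma for mw purity
-/

set_option autoImplicit false

open Module

universe u v w

namespace Pool.Agent.H89.MW

namespace Rep

variable {Ω : Type u} [Field Ω]

lemma Hom.map_pow {A B : Rep.{u, v} Ω} (f : Hom A B) (a : ℕ) (x : A.V) :
    f.toFun ((A.N ^ a) x) = (B.N ^ a) (f.toFun x) := by
  induction a with
  | zero => simp
  | succ a ih => rw [pow_succ', Module.End.mul_apply, f.map_N, ih, pow_succ', Module.End.mul_apply]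

lemma Hom.comp_zero {A B C : Rep.{u, v} Ω} {f : Hom A B} {g : Hom B C} (h : f.Exact g) (x : A.V) :
    g.toFun (f.toFun x) = 0 := (h _).mpr ⟨x, rfl⟩

variable [CharZero Ω] [IsAlgClosed Ω] {q : ℕ}

lemma isPure_iff (hq : 1 < q) {A : Rep.{u, v} Ω} (hA : A.IsLocal q) (i : ℤ) :
    A.IsPure q i ↔ WPure q i A.Φ A.N :=
  have := hA.finite
  isMWPure_iff hq hA.relation i

/-- **The five lemma.** -/
theorem five (hq : 1 < q) {i : ℤ} {A B C D E : Rep.{u, v} Ω} {f : Hom A B} {g : Hom B C}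
    {h : Hom C D} {k : Hom D E} (e1 : f.Exact g) (e2 : g.Exact h) (e3 : h.Exact k)
    (lA : A.IsLocal q) (lB : B.IsLocal q) (lC : C.IsLocal q) (lD : D.IsLocal q)
    (lE : E.IsLocal q) (pA : A.IsPure q i) (pB : B.IsPure q i) (pD : D.IsPure q i)
    (pE : E.IsPure q i) : C.IsPure q i := by
  rw [isPure_iff hq lA] at pA
  rw [isPure_iff hq lB] at pB
  rw [isPure_iff hq lD] at pD
  rw [isPure_iff hq lE] at pE
  rw [isPure_iff hq lC]
  have := lA.finite
  have := lB.finite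
  have := lC.finite
  have := lD.finite
  have hd : Disjoint (Wa Ω q) (Wa Ω q)ᶜ := disjoint_compl_right
  refine ⟨?_, ?_, ?_⟩
  · rw [eq_top_iff]
    intro x _
    obtain ⟨s, hs, t, ht, rfl⟩ := exists_decomp C.Φ (Wa Ω q) x
    have h1 : h.toFun t = 0 := by
      refine wt_zero (Φ := D.Φ) hd ?_ (wt_hom h.map_Φ ht)
      rw [pD.weil]
      exact Submodule.mem_top
    obtain ⟨y, hy, hyt⟩ := wt_exact g.map_Φ e2 ht h1
    have h2 : y = 0 := by
      refine wt_zero (Φ := B.Φ) hd ?_ hy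
      rw [pB.weil]
      exact Submodule.mem_top
    rw [← hyt, h2, map_zero, add_zero]
    exact hs
  · intro a x hx h0
    have h1 : h.toFun x = 0 := by
      refine pD.inj a _ (wt_hom h.map_Φ hx) ?_
      rw [← Hom.map_pow, h0, map_zero]
    obtain ⟨y, hy, rfl⟩ := wt_exact g.map_Φ e2 hx h1
    have h2 : g.toFun ((B.N ^ a) y) = 0 := by rw [Hom.map_pow, h0]
    have h3 : (B.N ^ a) y ∈ wt B.Φ (Ws Ω q (i - a)) := by
      have := Npow_Ws hq lB.relation a hy
      rwa [show i + (a : ℤ) - 2 * a = i - a by ring] at this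
    obtain ⟨z, hz, hzy⟩ := wt_exact f.map_Φ e1 h3 h2
    obtain ⟨z', hz', rfl⟩ := pA.surj a z hz
    have h4 : y - f.toFun z' = 0 := by
      refine pB.inj a _ (Submodule.sub_mem _ hy (wt_hom f.map_Φ hz')) ?_
      rw [map_sub, ← Hom.map_pow, hzy, sub_self]
    rw [sub_eq_zero.mp h4]
    exact Hom.comp_zero e1 z'
  · intro a y hy
    obtain ⟨v, hv, hvy⟩ := pD.surj a (h.toFun y) (wt_hom h.map_Φ hy)
    have h1 : k.toFun v = 0 := by
      refine pE.inj a _ (wt_hom k.map_Φ hv) ?_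
      rw [← Hom.map_pow, hvy]
      exact Hom.comp_zero e3 y
    obtain ⟨x, hx, rfl⟩ := wt_exact h.map_Φ e3 hv h1
    have h2 : y - (C.N ^ a) x ∈ wt C.Φ (Ws Ω q (i - a)) := by
      refine Submodule.sub_mem _ hy ?_
      have := Npow_Ws hq lC.relation a hx
      rwa [show i + (a : ℤ) - 2 * a = i - a by ring] at this
    have h3 : h.toFun (y - (C.N ^ a) x) = 0 := by
      rw [map_sub, Hom.map_pow, hvy, sub_self]
    obtain ⟨z, hz, hzy⟩ := wt_exact g.map_Φ e2 h2 h3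
    obtain ⟨z', hz', rfl⟩ := pB.surj a z hz
    refine ⟨x + g.toFun z', Submodule.add_mem _ hx (wt_hom g.map_Φ hz'), ?_⟩
    rw [map_add, ← Hom.map_pow, hzy]
    abel

omit [IsAlgClosed Ω] in
/-- Zero is mw pure. -/
lemma isPure_zero {A : Rep.{u, v} Ω} (h : Subsingleton A.V) (i : ℤ) : A.IsPure q i := by
  refine ⟨fun _ => ⊥, ⟨fun _ _ _ => le_rfl, ⟨0, rfl⟩, ⟨0, Subsingleton.elim _ _⟩, ?_, ?_, ?_⟩, ?_, ?_⟩
  · intro a x _
    rw [Subsingleton.elim (A.N x) 0]
    exact Submodule.zero_mem _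
  · intro a x hx _
    exact hx
  · intro a y _
    exact ⟨0, Submodule.zero_mem _, by rw [Subsingleton.elim (y - (A.N ^ a) 0) 0]; exact Submodule.zero_mem _⟩
  · intro a x _
    rw [Subsingleton.elim (A.Φ x) 0]
    exact Submodule.zero_mem _
  · intro a α x _ hx
    exact absurd (by rw [Subsingleton.elim x 0]; exact Submodule.zero_mem _) hx

omit [IsAlgClosed Ω] in
/-- Isomorphic representations. -/
lemma IsPure.iso {A B : Rep.{u, v} Ω} (e : A.Iso B) {i : ℤ} (h : A.IsPure q i) :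
    B.IsPure q i := by
  obtain ⟨f, hf⟩ := e
  obtain ⟨M, hM, hΦ, hw⟩ := h
  let e : A.V ≃ₗ[Ω] B.V := LinearEquiv.ofBijective f.toFun hf
  have he : ∀ x, e x = f.toFun x := fun _ => rfl
  have hmem : ∀ (a : ℤ) (x : B.V), x ∈ (M a).map e.toLinearMap ↔ e.symm x ∈ M a := by
    intro a x
    constructor
    · rintro ⟨y, hy, rfl⟩
      simpa using hy
    · intro hx
      exact ⟨e.symm x, hx, by simp⟩
  have hΦ' : ∀ x, e.symm (B.Φ x) = A.Φ (e.symm x) := by
    intro x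
    rw [LinearEquiv.symm_apply_eq, he, f.map_Φ, ← he, LinearEquiv.apply_symm_apply]
  have hN' : ∀ x, e.symm (B.N x) = A.N (e.symm x) := by
    intro x
    rw [LinearEquiv.symm_apply_eq, he, f.map_N, ← he, LinearEquiv.apply_symm_apply]
  have hNp : ∀ (a : ℕ) x, e.symm ((B.N ^ a) x) = (A.N ^ a) (e.symm x) := by
    intro a
    induction a with
    | zero => intro x; simp
    | succ a ih =>
      intro x
      rw [pow_succ', Module.End.mul_apply, hN', ih, pow_succ', Module.End.mul_apply]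
  refine ⟨fun a => (M a).map e.toLinearMap, ⟨?_, ?_, ?_, ?_, ?_, ?_⟩, ?_, ?_⟩
  · intro a b hab
    exact Submodule.map_mono (hM.mono hab)
  · obtain ⟨a, ha⟩ := hM.bot
    exact ⟨a, by rw [ha, Submodule.map_bot]⟩
  · obtain ⟨a, ha⟩ := hM.top
    exact ⟨a, by rw [ha, Submodule.map_top, LinearMap.range_eq_top]; exact e.surjective⟩
  · intro a x hx
    rw [hmem] at hx ⊢
    rw [hN']
    exact hM.map a _ hx
  · intro a x hx hx'
    rw [hmem] at hx hx' ⊢
    rw [hNp] at hx'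
    exact hM.inj a _ hx hx'
  · intro a y hy
    rw [hmem] at hy
    obtain ⟨x, hx, hxy⟩ := hM.surj a _ hy
    refine ⟨e x, (hmem _ _).mpr (by simpa using hx), (hmem _ _).mpr ?_⟩
    rw [map_sub, hNp, LinearEquiv.symm_apply_apply]
    exact hxy
  · intro a x hx
    rw [hmem] at hx ⊢
    rw [hΦ']
    exact hΦ a _ hx
  · intro a α x hx hx' h3
    rw [hmem] at hx hx' h3
    rw [map_sub, hΦ', map_smul] at h3
    exact hw a α _ hx hx' h3

omit [CharZero Ω] [IsAlgClosed Ω] in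
lemma Iso.symm {A B : Rep.{u, v} Ω} (e : A.Iso B) : B.Iso A := by
  obtain ⟨f, hf⟩ := e
  let e : A.V ≃ₗ[Ω] B.V := LinearEquiv.ofBijective f.toFun hf
  have he : ∀ x, e x = f.toFun x := fun _ => rfl
  refine ⟨⟨e.symm.toLinearMap, fun x => ?_, fun x => ?_⟩, e.symm.bijective⟩
  · change e.symm (B.Φ x) = A.Φ (e.symm x)
    rw [LinearEquiv.symm_apply_eq, he, f.map_Φ, ← he, LinearEquiv.apply_symm_apply]
  · change e.symm (B.N x) = A.N (e.symm x)
    rw [LinearEquiv.symm_apply_eq, he, f.map_N, ← he, LinearEquiv.apply_symm_apply]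

omit [IsAlgClosed Ω] in
/-- Tate twists. -/
lemma IsPure.twist (hq : 1 < q) {A : Rep.{u, v} Ω} {i : ℤ} (h : A.IsPure q i) (a : ℤ) :
    (A.twist q a).IsPure q (i - 2 * a) := by
  obtain ⟨M, hM, hΦ, hw⟩ := h
  have hq0 : (q : Ω) ≠ 0 := Nat.cast_ne_zero.2 (by omega)
  refine ⟨M, hM, fun b x hx => Submodule.smul_mem _ _ (hΦ b x hx), ?_⟩
  intro b α (x : A.V) hx hx' h3
  have h3' : (q : Ω) ^ (-a) • A.Φ x - α • x ∈ M (b - 1) := h3
  have h4 : A.Φ x - ((q : Ω) ^ a * α) • x ∈ M (b - 1) := by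
    have h5 : A.Φ x - ((q : Ω) ^ a * α) • x =
        (q : Ω) ^ a • ((q : Ω) ^ (-a) • A.Φ x - α • x) := by
      rw [smul_sub, smul_smul, smul_smul, zpow_neg, mul_inv_cancel₀ (zpow_ne_zero _ hq0), one_smul]
    rw [h5]
    exact Submodule.smul_mem _ _ h3'
  have h5 := (hw b _ x hx hx' h4).twist (by omega : q ≠ 0) (-a)
  rw [← mul_assoc, zpow_neg, inv_mul_cancel₀ (zpow_ne_zero _ hq0), one_mul] at h5
  rwa [show b + i + 2 * -a = b + (i - 2 * a) by ring] at h5

omit [IsAlgClosed Ω] in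
lemma IsPure.of_twist (hq : 1 < q) {A : Rep.{u, v} Ω} {i a : ℤ}
    (h : (A.twist q a).IsPure q (i - 2 * a)) : A.IsPure q i := by
  have h1 := h.twist hq (-a)
  rw [show i - 2 * a - 2 * -a = i by ring] at h1
  have hq0 : (q : Ω) ≠ 0 := Nat.cast_ne_zero.2 (by omega)
  have h2 : ((A.twist q a).twist q (-a)).Iso A := by
    refine ⟨⟨(LinearMap.id : A.V →ₗ[Ω] A.V), fun x => ?_, fun x => rfl⟩, Function.bijective_id⟩
    change (q : Ω) ^ (- -a) • (q : Ω) ^ (-a) • A.Φ x = A.Φ x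
    rw [smul_smul, ← zpow_add₀ hq0, neg_neg, add_neg_cancel, zpow_zero, one_smul]
  exact h1.iso h2

end Rep

end Pool.Agent.H89.MW
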