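import Pool.Agent.H89.MW.Wt

/-!
# A characterization of mw purity by the weight spaces of the Frobenius
-/

set_option autoImplicit false

open Module

universe u v w

namespace Pool.Agent.H89.MW

section weil

variable {Ω : Type u} [Field Ω] [CharZero Ω]

/-- Tate twists of Weil numbers. -/
lemma IsWeilNumber.twist {q : ℕ} (hq : q ≠ 0) {w : ℤ} {β : Ω} (h : IsWeilNumber q w β) (k : ℤ) :
    IsWeilNumber q (w + 2 * k) ((q : Ω) ^ k * β) := by
  obtain ⟨h1, h2⟩ := h
  have hqΩ : (q : Ω) ≠ 0 := Nat.cast_ne_zero.2 hq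
  have hqC : (q : ℂ) ≠ 0 := Nat.cast_ne_zero.2 hq
  have hqalg : IsAlgebraic ℚ ((q : Ω) ^ k) := by
    have : ((q : Ω) ^ k) = algebraMap ℚ Ω ((q : ℚ) ^ k) := by
      rw [map_zpow₀, map_natCast]
    rw [this]
    exact isAlgebraic_algebraMap _
  refine ⟨hqalg.mul h1, fun z hz => ?_⟩
  set P := minpoly ℚ β with hP
  set Q : Polynomial ℚ := P.comp (Polynomial.C (((q : ℚ) ^ k)⁻¹) * Polynomial.X) with hQ
  have hQ0 : Polynomial.aeval ((q : Ω) ^ k * β) Q = 0 := by
    rw [hQ, Polynomial.aeval_comp]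
    simp only [map_mul, Polynomial.aeval_C, Polynomial.aeval_X, map_inv₀, map_zpow₀, map_natCast]
    rw [inv_mul_cancel_left₀ (zpow_ne_zero _ hqΩ)]
    exact minpoly.aeval ℚ β
  have hdvd := minpoly.dvd ℚ _ hQ0
  have hQz : Polynomial.aeval z Q = 0 := by
    obtain ⟨R, hR⟩ := hdvd
    rw [hR, map_mul, hz, zero_mul]
  rw [hQ, Polynomial.aeval_comp] at hQz
  simp only [map_mul, Polynomial.aeval_C, Polynomial.aeval_X, map_inv₀, map_zpow₀, map_natCast]
    at hQz
  have h3 := h2 _ hQz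
  rw [norm_mul, norm_inv, norm_zpow, Complex.norm_natCast] at h3
  have hqR : (0 : ℝ) < q := Nat.cast_pos.2 (Nat.pos_of_ne_zero hq)
  have h4 : ‖z‖ = (q : ℝ) ^ k * (q : ℝ) ^ ((w : ℝ) / 2) := by
    rw [← h3, ← mul_assoc, mul_inv_cancel₀ (zpow_ne_zero _ hqR.ne'), one_mul]
  rw [h4, ← Real.rpow_intCast, ← Real.rpow_add hqR]
  congr 1
  push_cast
  ring

/-- The weight of a Weil number is determined. -/
lemma IsWeilNumber.unique {q : ℕ} (hq : 1 < q) {w w' : ℤ} {α : Ω} (h : IsWeilNumber q w α)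
    (h' : IsWeilNumber q w' α) : w = w' := by
  have hint : IsIntegral ℚ α := h.1.isIntegral
  obtain ⟨z, hz⟩ := IsAlgClosed.exists_aeval_eq_zero ℂ (minpoly ℚ α)
    (minpoly.degree_pos hint).ne'
  have h1 : (q : ℝ) ^ ((w : ℝ) / 2) = (q : ℝ) ^ ((w' : ℝ) / 2) := by
    rw [← h.2 z hz, ← h'.2 z hz]
  have hq0 : (0 : ℝ) < q := by exact_mod_cast (by omega : 0 < q)
  have hq1 : (q : ℝ) ≠ 1 := by exact_mod_cast (by omega : q ≠ 1)
  have h2 := (Real.rpow_right_inj hq0 hq1).mp h1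
  have h3 : (w : ℝ) = w' := by linarith
  exact_mod_cast h3

/-- The Weil numbers of weight `w`. -/
def Ws (Ω : Type u) [Field Ω] [CharZero Ω] (q : ℕ) (w : ℤ) : Set Ω := {α | IsWeilNumber q w α}

/-- The Weil numbers of weight at most `w`. -/
def Wle (Ω : Type u) [Field Ω] [CharZero Ω] (q : ℕ) (w : ℤ) : Set Ω :=
  {α | ∃ w' ≤ w, IsWeilNumber q w' α}

lemma Wle_mono {q : ℕ} {w w' : ℤ} (h : w ≤ w') : Wle Ω q w ⊆ Wle Ω q w' := by
  rintro α ⟨v, hv, hα⟩
  exact ⟨v, hv.trans h, hα⟩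

lemma Wle_eq {q : ℕ} (w : ℤ) : Wle Ω q w = Ws Ω q w ∪ Wle Ω q (w - 1) := by
  ext α
  constructor
  · rintro ⟨v, hv, hα⟩
    rcases hv.lt_or_eq with h | rfl
    · exact Or.inr ⟨v, by omega, hα⟩
    · exact Or.inl hα
  · rintro (h | h)
    · exact ⟨w, le_rfl, h⟩
    · exact Wle_mono (by omega) h

lemma Ws_disjoint {q : ℕ} (hq : 1 < q) {w w' : ℤ} (h : w' < w) :
    Disjoint (Ws Ω q w) (Wle Ω q w') := by
  rw [Set.disjoint_left]
  rintro α hα ⟨v, hv, hα'⟩
  have := IsWeilNumber.unique hq hα hα'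
  omega

/-- All Weil numbers. -/
def Wa (Ω : Type u) [Field Ω] [CharZero Ω] (q : ℕ) : Set Ω := {α | ∃ w, IsWeilNumber q w α}

end weil

section pure

variable {Ω : Type u} [Field Ω] [CharZero Ω] {V : Type v} [AddCommGroup V] [Module Ω V]

/-- The characterization of mw purity by the weight spaces. -/
structure WPure (q : ℕ) (i : ℤ) (Φ N : Module.End Ω V) : Prop where
  weil : wt Φ (Wa Ω q) = ⊤
  inj : ∀ (a : ℕ), ∀ x ∈ wt Φ (Ws Ω q (i + a)), (N ^ a) x = 0 → x = 0
  surj : ∀ (a : ℕ), ∀ y ∈ wt Φ (Ws Ω q (i - a)), ∃ x ∈ wt Φ (Ws Ω q (i + a)), (N ^ a) x = y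

variable {q : ℕ} {Φ N : Module.End Ω V}

lemma N_map (hq : 1 < q) (hN : ∀ x, N (Φ x) = (q : Ω) • Φ (N x)) {S T : Set Ω}
    (hST : ∀ α ∈ S, (q : Ω)⁻¹ * α ∈ T) {x : V} (hx : x ∈ wt Φ S) : N x ∈ wt Φ T := by
  have hq0 : (q : Ω) ≠ 0 := Nat.cast_ne_zero.2 (by omega)
  refine wt_map (c := (q : Ω)⁻¹) (fun y => ?_) hST hx
  rw [hN, smul_smul, inv_mul_cancel₀ hq0, one_smul]

lemma N_Ws (hq : 1 < q) (hN : ∀ x, N (Φ x) = (q : Ω) • Φ (N x)) {w : ℤ} {x : V}
    (hx : x ∈ wt Φ (Ws Ω q w)) : N x ∈ wt Φ (Ws Ω q (w - 2)) := by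
  refine N_map hq hN (fun α hα => ?_) hx
  have h := IsWeilNumber.twist (by omega) hα (-1)
  rw [zpow_neg_one] at h
  exact h

lemma N_Wle (hq : 1 < q) (hN : ∀ x, N (Φ x) = (q : Ω) • Φ (N x)) {w : ℤ} {x : V}
    (hx : x ∈ wt Φ (Wle Ω q w)) : N x ∈ wt Φ (Wle Ω q (w - 2)) := by
  refine N_map hq hN (fun α hα => ?_) hx
  obtain ⟨v, hv, hα⟩ := hα
  have h := IsWeilNumber.twist (by omega) hα (-1)
  rw [zpow_neg_one] at h
  exact ⟨v + 2 * -1, by omega, h⟩

lemma Npow_Ws (hq : 1 < q) (hN : ∀ x, N (Φ x) = (q : Ω) • Φ (N x)) (a : ℕ) {w : ℤ} {x : V}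
    (hx : x ∈ wt Φ (Ws Ω q w)) : (N ^ a) x ∈ wt Φ (Ws Ω q (w - 2 * a)) := by
  induction a with
  | zero => simpa using hx
  | succ a ih =>
    rw [pow_succ', Module.End.mul_apply]
    have h := N_Ws hq hN ih
    rwa [show w - 2 * (a : ℤ) - 2 = w - 2 * ((a + 1 : ℕ) : ℤ) by push_cast; ring] at h

lemma Npow_Wle (hq : 1 < q) (hN : ∀ x, N (Φ x) = (q : Ω) • Φ (N x)) (a : ℕ) {w : ℤ} {x : V}
    (hx : x ∈ wt Φ (Wle Ω q w)) : (N ^ a) x ∈ wt Φ (Wle Ω q (w - 2 * a)) := by
  induction a with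
  | zero => simpa using hx
  | succ a ih =>
    rw [pow_succ', Module.End.mul_apply]
    have h := N_Wle hq hN ih
    rwa [show w - 2 * (a : ℤ) - 2 = w - 2 * ((a + 1 : ℕ) : ℤ) by push_cast; ring] at h

omit [CharZero Ω] in
/-- An eigenvector of `Φ` in `wt S` has its eigenvalue in `S`. -/
lemma eigen_mem {S : Set Ω} {α : Ω} {x : V} (hx : x ∈ wt Φ S) (h0 : x ≠ 0)
    (h : x ∈ Φ.maxGenEigenspace α) : α ∈ S := by
  by_contra hα
  apply h0
  refine wt_zero (Φ := Φ) (S := S) (T := {α}) (Set.disjoint_singleton_right.mpr hα) hx ?_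
  exact gen_le_wt Φ (Set.mem_singleton α) h

variable [IsAlgClosed Ω] [FiniteDimensional Ω V]

omit [IsAlgClosed Ω] [FiniteDimensional Ω V] [CharZero Ω] in
lemma exists_eigenvector {α : Ω} {x : V} (hx : x ∈ Φ.maxGenEigenspace α) (h0 : x ≠ 0) :
    ∃ (k : ℕ), ((Φ - α • (1 : Module.End Ω V)) ^ k) x ≠ 0 ∧
      (Φ - α • (1 : Module.End Ω V)) (((Φ - α • (1 : Module.End Ω V)) ^ k) x) = 0 := by
  obtain ⟨k, hk⟩ := mem_gen.mp hx
  clear hx
  induction k with
  | zero => exact absurd (by simpa using hk) h0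
  | succ k ih =>
    by_cases h1 : ((Φ - α • (1 : Module.End Ω V)) ^ k) x = 0
    · exact ih h1
    · refine ⟨k, h1, ?_⟩
      rw [pow_succ', Module.End.mul_apply] at hk
      exact hk

omit [IsAlgClosed Ω] [FiniteDimensional Ω V] [CharZero Ω] in
lemma hasEigenvalue_of_gen {α : Ω} {x : V} (hx : x ∈ Φ.maxGenEigenspace α) (h0 : x ≠ 0) :
    Φ.HasEigenvalue α := by
  obtain ⟨k, h1, h2⟩ := exists_eigenvector hx h0
  refine Module.End.hasEigenvalue_of_hasEigenvector
    (x := ((Φ - α • (1 : Module.End Ω V)) ^ k) x) ⟨?_, h1⟩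
  rw [Module.End.mem_eigenspace_iff]
  simpa [sub_eq_zero] using h2

omit [IsAlgClosed Ω] in
/-- The weights are bounded. -/
lemma exists_bound (Φ : Module.End Ω V) (hq : 1 < q) : ∃ b : ℤ, ∀ α, Φ.HasEigenvalue α →
    ∀ w, IsWeilNumber q w α → |w| ≤ b := by
  classical
  have hfin : {α | Φ.HasEigenvalue α}.Finite := Module.End.finite_hasEigenvalue Φ
  have h1 : ∀ T : Finset Ω, ∃ b : ℤ, ∀ α ∈ T, ∀ w, IsWeilNumber q w α → |w| ≤ b := by
    intro T
    induction T using Finset.induction_on with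
    | empty => exact ⟨0, by simp⟩
    | insert β T hβ ih =>
      obtain ⟨b, hb⟩ := ih
      by_cases h : ∃ w, IsWeilNumber q w β
      · obtain ⟨w0, hw0⟩ := h
        refine ⟨max b |w0|, fun α hα w hw => ?_⟩
        rcases Finset.mem_insert.mp hα with rfl | h
        · rw [IsWeilNumber.unique hq hw hw0]
          exact le_max_right _ _
        · exact (hb α h w hw).trans (le_max_left _ _)
      · refine ⟨b, fun α hα w hw => ?_⟩
        rcases Finset.mem_insert.mp hα with rfl | h'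
        · exact absurd ⟨w, hw⟩ h
        · exact hb α h' w hw
  obtain ⟨b, hb⟩ := h1 hfin.toFinset
  exact ⟨b, fun α hα => hb α (hfin.mem_toFinset.mpr hα)⟩

omit [IsAlgClosed Ω] in
/-- The filtration by the weights is zero for small weights. -/
lemma exists_Wle_bot (Φ : Module.End Ω V) (hq : 1 < q) : ∃ b, ∀ w ≤ b, wt Φ (Wle Ω q w) = ⊥ := by
  obtain ⟨b, hb⟩ := exists_bound Φ hq
  refine ⟨-b - 1, fun w' hw' => ?_⟩
  rw [wt, eq_bot_iff]
  refine iSup₂_le fun α hα x hx => ?_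
  obtain ⟨w, hw, hα⟩ := hα
  by_contra hx0
  rw [Submodule.mem_bot] at hx0
  have h1 := hb α (hasEigenvalue_of_gen hx hx0) w hα
  have h2 := neg_abs_le w
  omega

omit [IsAlgClosed Ω] in
/-- The filtration by the weights is everything for large weights. -/
lemma exists_Wle_top (Φ : Module.End Ω V) (hq : 1 < q) (h : wt Φ (Wa Ω q) = ⊤) :
    ∃ b, ∀ w, b ≤ w → wt Φ (Wle Ω q w) = ⊤ := by
  obtain ⟨b, hb⟩ := exists_bound Φ hq
  refine ⟨b, fun w' hw' => ?_⟩
  rw [eq_top_iff, ← h, wt]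
  refine iSup₂_le fun α hα x hx => ?_
  obtain ⟨w, hα⟩ := hα
  by_cases hx0 : x = 0
  · rw [hx0]
    exact Submodule.zero_mem _
  · have h1 := hb α (hasEigenvalue_of_gen hx hx0) w hα
    have h2 : α ∈ Wle Ω q w' := ⟨w, (le_abs_self w).trans (h1.trans hw'), hα⟩
    exact gen_le_wt Φ h2 hx

omit [IsAlgClosed Ω] [FiniteDimensional Ω V] in
lemma mem_Wle (Φ : Module.End Ω V) {w : ℤ} {x : V} (hx : x ∈ wt Φ (Wle Ω q w)) :
    ∃ s ∈ wt Φ (Ws Ω q w), ∃ t ∈ wt Φ (Wle Ω q (w - 1)), s + t = x := by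
  rw [Wle_eq, wt_union] at hx
  exact Submodule.mem_sup.mp hx

omit [IsAlgClosed Ω] [FiniteDimensional Ω V] in
lemma Ws_le_Wle (Φ : Module.End Ω V) {w : ℤ} : wt Φ (Ws Ω q w) ≤ wt Φ (Wle Ω q w) :=
  wt_mono Φ fun _ h => ⟨w, le_rfl, h⟩

omit [IsAlgClosed Ω] in
/-- From the weight spaces to mw purity. -/
theorem WPure.isMWPure (hq : 1 < q) (hN : ∀ x, N (Φ x) = (q : Ω) • Φ (N x)) {i : ℤ}
    (h : WPure q i Φ N) : IsMWPure q i Φ N := by
  refine ⟨fun a => wt Φ (Wle Ω q (i + a)), ⟨?_, ?_, ?_, ?_, ?_, ?_⟩, fun a x hx => wt_stable hx, ?_⟩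
  · intro a b hab
    exact wt_mono Φ (Wle_mono (by omega))
  · obtain ⟨b, hb⟩ := exists_Wle_bot Φ hq
    exact ⟨b - i, hb _ (by omega)⟩
  · obtain ⟨b, hb⟩ := exists_Wle_top Φ hq h.weil
    exact ⟨b - i, hb _ (by omega)⟩
  · intro a x hx
    have := N_Wle hq hN hx
    rwa [show i + a - 2 = i + (a - 2) by ring] at this
  · intro a x hx hx'
    obtain ⟨s, hs, t, ht, rfl⟩ := mem_Wle Φ hx
    have h1 : (N ^ a) s = 0 := by
      have h2 := Npow_Ws hq hN a hs
      have h3 := Npow_Wle hq hN a ht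
      have h4 : (N ^ a) s ∈ wt Φ (Wle Ω q (i + (-a - 1))) := by
        have h5 : (N ^ a) s = (N ^ a) (s + t) - (N ^ a) t := by
          rw [map_add]
          abel
        rw [h5]
        refine Submodule.sub_mem _ hx' ?_
        rwa [show i + (a : ℤ) - 1 - 2 * a = i + (-a - 1) by ring] at h3
      exact wt_zero (Ws_disjoint hq (by omega)) h2 h4
    have h0 := h.inj a s hs h1
    rw [h0, zero_add]
    rwa [show i + (a : ℤ) - 1 = i + (a - 1) by ring] at ht
  · intro a y hy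
    obtain ⟨s, hs, t, ht, rfl⟩ := mem_Wle Φ hy
    obtain ⟨x, hx, hxs⟩ := h.surj a s (by rwa [← sub_eq_add_neg] at hs)
    refine ⟨x, Ws_le_Wle Φ hx, ?_⟩
    rw [hxs, add_sub_cancel_left]
    rwa [show i + -(a : ℤ) - 1 = i + (-a - 1) by ring] at ht
  · intro a α x hx hx' hα
    obtain ⟨s, hs, t, ht, rfl⟩ := mem_Wle Φ hx
    change _ ∉ wt Φ (Wle Ω q (i + (a - 1))) at hx'
    change _ ∈ wt Φ (Wle Ω q (i + (a - 1))) at hα
    rw [show i + (a - 1) = i + a - 1 by ring] at hx' hα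
    have hs0 : s ≠ 0 := by
      rintro rfl
      exact hx' (by rwa [zero_add])
    have h1 : Φ s - α • s = 0 := by
      have h2 : Φ s - α • s ∈ wt Φ (Ws Ω q (i + a)) :=
        Submodule.sub_mem _ (wt_stable hs) (Submodule.smul_mem _ _ hs)
      have h3 : Φ s - α • s ∈ wt Φ (Wle Ω q (i + a - 1)) := by
        have h4 : Φ s - α • s = (Φ (s + t) - α • (s + t)) - (Φ t - α • t) := by
          rw [map_add, smul_add]
          abel
        rw [h4]
        exact Submodule.sub_mem _ hα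
          (Submodule.sub_mem _ (wt_stable ht) (Submodule.smul_mem _ _ ht))
      exact wt_zero (Ws_disjoint hq (by omega)) h2 h3
    have h2 : s ∈ Φ.maxGenEigenspace α := by
      rw [mem_gen]
      exact ⟨1, by simpa using h1⟩
    have h3 : α ∈ Ws Ω q (i + a) := eigen_mem hs hs0 h2
    rw [add_comm a i]
    exact h3

omit [CharZero Ω] [IsAlgClosed Ω] [FiniteDimensional Ω V] in
/-- The least index of the filtration with a given element. -/
lemma exists_least {M : ℤ → Submodule Ω V} (hm : Monotone M) (hb : ∃ a, M a = ⊥)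
    (ht : ∃ a, M a = ⊤) {x : V} (hx : x ≠ 0) : ∃ a, x ∈ M a ∧ x ∉ M (a - 1) := by
  obtain ⟨b, hb⟩ := hb
  obtain ⟨t, ht⟩ := ht
  have hbt : b < t := by
    by_contra h
    have h1 : M t ≤ M b := hm (not_lt.mp h)
    rw [ht, hb] at h1
    exact hx ((Submodule.mem_bot Ω).mp (h1 Submodule.mem_top))
  -- induction on the distance
  have key : ∀ n : ℕ, x ∈ M (b + n) → ∃ a, x ∈ M a ∧ x ∉ M (a - 1) := by
    intro n
    induction n with
    | zero =>
      intro h
      rw [Nat.cast_zero, add_zero, hb] at h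
      exact absurd ((Submodule.mem_bot Ω).mp h) hx
    | succ n ih =>
      intro h
      by_cases h1 : x ∈ M (b + n)
      · exact ih h1
      · refine ⟨_, h, ?_⟩
        rwa [show b + ((n + 1 : ℕ) : ℤ) - 1 = b + n by push_cast; ring]
  refine key (t - b).toNat ?_
  rw [Int.toNat_of_nonneg (by omega), show b + (t - b) = t by ring, ht]
  exact Submodule.mem_top

/-- From mw purity to the weight spaces. -/
theorem IsMWPure.wPure (hq : 1 < q) (hN : ∀ x, N (Φ x) = (q : Ω) • Φ (N x)) {i : ℤ}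
    (h : IsMWPure q i Φ N) : WPure q i Φ N := by
  obtain ⟨M, hM, hΦ, hw⟩ := h
  -- a generalized eigenvector in `M_a` has weight at most `i + a`
  have hstab : ∀ (a : ℤ) (α : Ω) (k : ℕ) (x : V), x ∈ M a →
      ((Φ - α • (1 : Module.End Ω V)) ^ k) x ∈ M a := by
    intro a α k
    induction k with
    | zero => intro x hx; simpa using hx
    | succ k ih =>
      intro x hx
      rw [pow_succ', Module.End.mul_apply]
      have h1 := ih x hx
      simp only [LinearMap.sub_apply, LinearMap.smul_apply, Module.End.one_apply]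
      exact Submodule.sub_mem _ (hΦ _ _ h1) (Submodule.smul_mem _ _ h1)
  -- the eigenvalues are Weil numbers
  have h1 : ∀ (α : Ω) (x : V), x ∈ Φ.maxGenEigenspace α → x ≠ 0 → ∀ a, x ∈ M a →
      ∃ w ≤ i + a, IsWeilNumber q w α := by
    intro α x hx h0 a ha
    obtain ⟨k, hk, hk'⟩ := exists_eigenvector hx h0
    obtain ⟨b, hb, hb'⟩ := exists_least hM.mono hM.bot hM.top hk
    have hba : b ≤ a := by
      by_contra h
      exact hb' (hM.mono (by omega) (hstab a α k x ha))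
    refine ⟨b + i, by omega, hw b α _ hb hb' ?_⟩
    have h2 : Φ (((Φ - α • (1 : Module.End Ω V)) ^ k) x) -
        α • (((Φ - α • (1 : Module.End Ω V)) ^ k) x) = 0 := by
      simpa using hk'
    rw [h2]
    exact Submodule.zero_mem _
  have h2 : ∀ (α : Ω) (w : ℤ) (x : V), IsWeilNumber q w α → x ∈ Φ.maxGenEigenspace α →
      x ∈ M (w - i) := by
    intro α w x hα hx
    by_cases h0 : x = 0
    · rw [h0]
      exact Submodule.zero_mem _
    obtain ⟨b, hb, hb'⟩ := exists_least hM.mono hM.bot hM.top h0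
    -- the last power outside `M (b - 1)`
    obtain ⟨k, hk⟩ := mem_gen.mp hx
    have h3 : ∃ z ∈ M b, z ∉ M (b - 1) ∧ (Φ - α • (1 : Module.End Ω V)) z ∈ M (b - 1) := by
      clear hx h0
      have : ∃ m : ℕ, ((Φ - α • (1 : Module.End Ω V)) ^ m) x ∉ M (b - 1) ∧
          (Φ - α • (1 : Module.End Ω V)) (((Φ - α • (1 : Module.End Ω V)) ^ m) x) ∈ M (b - 1) := by
        induction k with
        | zero =>
          exfalso
          apply hb'
          have : x = 0 := by simpa using hk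
          rw [this]
          exact Submodule.zero_mem _
        | succ k ih =>
          by_cases h4 : ((Φ - α • (1 : Module.End Ω V)) ^ k) x ∈ M (b - 1)
          · -- go down
            have : ∀ m : ℕ, ((Φ - α • (1 : Module.End Ω V)) ^ m) x ∈ M (b - 1) →
                ∃ m : ℕ, ((Φ - α • (1 : Module.End Ω V)) ^ m) x ∉ M (b - 1) ∧
                (Φ - α • (1 : Module.End Ω V)) (((Φ - α • (1 : Module.End Ω V)) ^ m) x) ∈
                  M (b - 1) := by
              intro m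
              induction m with
              | zero => intro h5; exact absurd (by simpa using h5) hb'
              | succ m ihm =>
                intro h5
                by_cases h6 : ((Φ - α • (1 : Module.End Ω V)) ^ m) x ∈ M (b - 1)
                · exact ihm h6
                · refine ⟨m, h6, ?_⟩
                  rwa [pow_succ', Module.End.mul_apply] at h5
            exact this k h4
          · refine ⟨k, h4, ?_⟩
            rw [pow_succ', Module.End.mul_apply] at hk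
            rw [hk]
            exact Submodule.zero_mem _
      obtain ⟨m, hm1, hm2⟩ := this
      exact ⟨_, hstab b α m x hb, hm1, hm2⟩
    obtain ⟨z, hz1, hz2, hz3⟩ := h3
    have h4 := hw b α z hz1 hz2 (by simpa using hz3)
    have h5 := IsWeilNumber.unique hq hα h4
    rwa [show w - i = b by omega]
  -- the filtration is the filtration by the weights
  have hWa : wt Φ (Wa Ω q) = ⊤ := by
    rw [eq_top_iff, ← wt_univ Φ, wt]
    refine iSup₂_le fun α _ x hx => ?_
    by_cases h0 : x = 0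
    · rw [h0]
      exact Submodule.zero_mem _
    · obtain ⟨t, ht⟩ := hM.top
      obtain ⟨w, -, hα⟩ := h1 α x hx h0 t (by rw [ht]; exact Submodule.mem_top)
      have h3 : α ∈ Wa Ω q := ⟨w, hα⟩
      exact gen_le_wt Φ h3 hx
  have hge : ∀ a, wt Φ (Wle Ω q (i + a)) ≤ M a := by
    intro a
    refine iSup₂_le fun α hα x hx => ?_
    obtain ⟨w, hw', hα⟩ := hα
    exact hM.mono (by omega) (h2 α w x hα hx)
  have hle : ∀ a, M a ≤ wt Φ (Wle Ω q (i + a)) := by
    intro a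
    have h3 : M a ⊓ (⨆ α, Φ.maxGenEigenspace α) = ⨆ α, M a ⊓ Φ.maxGenEigenspace α :=
      Submodule.inf_iSup_genEigenspace (fun x hx => hΦ a x hx) ⊤
    rw [Module.End.iSup_maxGenEigenspace_eq_top, inf_top_eq] at h3
    rw [h3]
    refine iSup_le fun α x hx => ?_
    by_cases h0 : x = 0
    · rw [h0]
      exact Submodule.zero_mem _
    · obtain ⟨w, hw', hα⟩ := h1 α x hx.2 h0 a hx.1
      have h4 : α ∈ Wle Ω q (i + a) := ⟨w, hw', hα⟩
      exact gen_le_wt Φ h4 hx.2
  have heq : ∀ a, M a = wt Φ (Wle Ω q (i + a)) := fun a => le_antisymm (hle a) (hge a)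
  refine ⟨hWa, ?_, ?_⟩
  · intro a x hx h0
    have h3 := hM.inj a x (hge a (Ws_le_Wle Φ hx)) (by rw [h0]; exact Submodule.zero_mem _)
    rw [heq] at h3
    exact wt_zero (Ws_disjoint hq (by omega)) hx h3
  · intro a y hy
    obtain ⟨x, hx, hxy⟩ := hM.surj a y (hge (-a) (Ws_le_Wle Φ (by rwa [← sub_eq_add_neg])))
    rw [heq] at hx hxy
    obtain ⟨s, hs, t, ht, rfl⟩ := mem_Wle Φ hx
    refine ⟨s, hs, ?_⟩
    have h3 : y - (N ^ a) s = 0 := by
      have h4 : y - (N ^ a) s ∈ wt Φ (Ws Ω q (i - a)) := by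
        refine Submodule.sub_mem _ hy ?_
        have := Npow_Ws hq hN a hs
        rwa [show i + (a : ℤ) - 2 * a = i - a by ring] at this
      have h5 : y - (N ^ a) s ∈ wt Φ (Wle Ω q (i + (-a - 1))) := by
        have h6 : y - (N ^ a) s = (y - (N ^ a) (s + t)) + (N ^ a) t := by
          rw [map_add]
          abel
        rw [h6]
        refine Submodule.add_mem _ hxy ?_
        have := Npow_Wle hq hN a ht
        rwa [show i + (a : ℤ) - 1 - 2 * a = i + (-a - 1) by ring] at this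
      exact wt_zero (Ws_disjoint hq (by omega)) h4 h5
    exact (sub_eq_zero.mp h3).symm

/-- mw purity in terms of the weight spaces. -/
theorem isMWPure_iff (hq : 1 < q) (hN : ∀ x, N (Φ x) = (q : Ω) • Φ (N x)) (i : ℤ) :
    IsMWPure q i Φ N ↔ WPure q i Φ N :=
  ⟨IsMWPure.wPure hq hN, WPure.isMWPure hq hN⟩

end pure

end Pool.Agent.H89.MW
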