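import Pool.Agent.H89.MW.Defs

/-!
# Generalized eigenspaces of the Frobenius for sets of eigenvalues, and mw purity
-/

set_option autoImplicit false

open Module

universe u v w

namespace Pool.Agent.H89.MW

section basic

variable {Ω : Type u} [Field Ω] {V : Type v} [AddCommGroup V] [Module Ω V]
  {W : Type w} [AddCommGroup W] [Module Ω W]

/-- The sum of the generalized eigenspaces of `Φ` for the eigenvalues in `S`. -/
def wt (Φ : Module.End Ω V) (S : Set Ω) : Submodule Ω V := ⨆ α ∈ S, Φ.maxGenEigenspace α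

lemma wt_mono (Φ : Module.End Ω V) {S T : Set Ω} (h : S ⊆ T) : wt Φ S ≤ wt Φ T :=
  biSup_mono h

lemma gen_le_wt (Φ : Module.End Ω V) {S : Set Ω} {α : Ω} (h : α ∈ S) :
    Φ.maxGenEigenspace α ≤ wt Φ S := le_biSup (f := fun α => Φ.maxGenEigenspace α) h

lemma mem_gen {Φ : Module.End Ω V} {α : Ω} {x : V} :
    x ∈ Φ.maxGenEigenspace α ↔ ∃ k : ℕ, ((Φ - α • (1 : Module.End Ω V)) ^ k) x = 0 :=
  Module.End.mem_maxGenEigenspace Φ α x

/-- An equivariant map (up to a factor) maps generalized eigenspaces to generalized eigenspaces. -/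
lemma gen_map {Φ : Module.End Ω V} {Ψ : Module.End Ω W} {c : Ω} {f : V →ₗ[Ω] W}
    (hf : ∀ x, Ψ (f x) = c • f (Φ x)) {α : Ω} {x : V} (hx : x ∈ Φ.maxGenEigenspace α) :
    f x ∈ Ψ.maxGenEigenspace (c * α) := by
  rw [mem_gen] at hx ⊢
  obtain ⟨k, hk⟩ := hx
  refine ⟨k, ?_⟩
  have h1 : ∀ (k : ℕ) (y : V), ((Ψ - (c * α) • (1 : Module.End Ω W)) ^ k) (f y) =
      c ^ k • f (((Φ - α • (1 : Module.End Ω V)) ^ k) y) := by
    intro k
    induction k with
    | zero => intro y; simp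
    | succ k ih =>
      intro y
      rw [pow_succ, Module.End.mul_apply, pow_succ (Φ - α • (1 : Module.End Ω V)),
        Module.End.mul_apply]
      have h2 : (Ψ - (c * α) • (1 : Module.End Ω W)) (f y) =
          f (c • (Φ - α • (1 : Module.End Ω V)) y) := by
        simp only [LinearMap.sub_apply, LinearMap.smul_apply, Module.End.one_apply, map_smul,
          map_sub, hf, smul_sub, smul_smul]
      rw [h2, ih, map_smul, map_smul, smul_smul, pow_succ]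
  rw [h1, hk, map_zero, smul_zero]

lemma wt_map {Φ : Module.End Ω V} {Ψ : Module.End Ω W} {c : Ω} {f : V →ₗ[Ω] W}
    (hf : ∀ x, Ψ (f x) = c • f (Φ x)) {S T : Set Ω} (hST : ∀ α ∈ S, c * α ∈ T) {x : V}
    (hx : x ∈ wt Φ S) : f x ∈ wt Ψ T := by
  have h : wt Φ S ≤ (wt Ψ T).comap f := by
    refine iSup₂_le fun α hα y hy => ?_
    exact gen_le_wt Ψ (hST α hα) (gen_map hf hy)
  exact h hx

lemma wt_hom {Φ : Module.End Ω V} {Ψ : Module.End Ω W} {f : V →ₗ[Ω] W}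
    (hf : ∀ x, f (Φ x) = Ψ (f x)) {S : Set Ω} {x : V} (hx : x ∈ wt Φ S) : f x ∈ wt Ψ S :=
  wt_map (c := 1) (fun x => by rw [one_smul, hf]) (fun α hα => by rwa [one_mul]) hx

lemma wt_stable {Φ : Module.End Ω V} {S : Set Ω} {x : V} (hx : x ∈ wt Φ S) : Φ x ∈ wt Φ S :=
  wt_hom (f := Φ) (fun _ => rfl) hx

lemma wt_disjoint (Φ : Module.End Ω V) {S T : Set Ω} (h : Disjoint S T) :
    Disjoint (wt Φ S) (wt Φ T) :=
  (Module.End.independent_maxGenEigenspace Φ).disjoint_biSup_biSup h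

lemma wt_zero {Φ : Module.End Ω V} {S T : Set Ω} (h : Disjoint S T) {x : V} (hS : x ∈ wt Φ S)
    (hT : x ∈ wt Φ T) : x = 0 :=
  Submodule.disjoint_def.mp (wt_disjoint Φ h) x hS hT

lemma wt_union (Φ : Module.End Ω V) (S T : Set Ω) : wt Φ (S ∪ T) = wt Φ S ⊔ wt Φ T := by
  rw [wt, iSup_union]
  rfl

variable [IsAlgClosed Ω] [FiniteDimensional Ω V]

lemma wt_univ (Φ : Module.End Ω V) : wt Φ Set.univ = ⊤ := by
  rw [wt, iSup_univ]
  exact Module.End.iSup_maxGenEigenspace_eq_top Φ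

lemma exists_decomp (Φ : Module.End Ω V) (S : Set Ω) (x : V) :
    ∃ s ∈ wt Φ S, ∃ t ∈ wt Φ Sᶜ, s + t = x := by
  have h : x ∈ wt Φ S ⊔ wt Φ Sᶜ := by
    rw [← wt_union, Set.union_compl_self, wt_univ]
    exact Submodule.mem_top
  exact Submodule.mem_sup.mp h

/-- The functor `wt S` is exact. -/
lemma wt_exact {U : Type w} [AddCommGroup U] [Module Ω U] {Φ : Module.End Ω V}
    {Ψ : Module.End Ω W} {f : V →ₗ[Ω] W} {g : W →ₗ[Ω] U}
    (hf : ∀ x, f (Φ x) = Ψ (f x)) (hfg : ∀ y, g y = 0 ↔ ∃ x, f x = y)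
    {S : Set Ω} {y : W} (hy : y ∈ wt Ψ S) (h0 : g y = 0) : ∃ x ∈ wt Φ S, f x = y := by
  obtain ⟨x, hx⟩ := (hfg y).mp h0
  obtain ⟨s, hs, t, ht, hst⟩ := exists_decomp Φ S x
  refine ⟨s, hs, ?_⟩
  have h1 : f t = y - f s := by
    rw [← hx, ← hst, map_add]
    abel
  have h2 : f t = 0 := by
    refine wt_zero (Φ := Ψ) (disjoint_compl_right : Disjoint S Sᶜ) ?_ (wt_hom hf ht)
    rw [h1]
    exact Submodule.sub_mem _ hy (wt_hom hf hs)
  rw [h2] at h1
  exact (sub_eq_zero.mp h1.symm).symm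

end basic

end Pool.Agent.H89.MW
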